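import Pool.Agent.H94.NF.S
import Pool.Agent.H14.NF.Base
import Pool.Agent.H76.T1.SNTK

/-!
# NF: most polynomials of the family are smooth
-/

set_option autoImplicit false

namespace Pool.NF

open Polynomial NumberField IsDedekindDomain Pool.T1

/-- DENN: most polynomials of the family are smooth. -/
def DENNStmt : Prop :=
  ∀ (K : Type) [Field K] [NumberField K], ∃ A : Finset (HeightOneSpectrum (𝓞 K)), DenN K A

theorem cub_monic {R : Type} [CommRing R] [Nontrivial R] (a₁ a₂ a₃ : R) :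
    (cub a₁ a₂ a₃).Monic ∧ (cub a₁ a₂ a₃).natDegree = 3 := by
  have h : cub a₁ a₂ a₃ = Cubic.toPoly ⟨1, a₁, a₂, a₃⟩ := by
    simp [cub, Cubic.toPoly]
  rw [h]
  exact ⟨Cubic.monic_of_a_eq_one' , Cubic.natDegree_of_a_ne_zero' one_ne_zero⟩

theorem cub_coeff {R : Type} [CommRing R] (a₁ a₂ a₃ : R) :
    (cub a₁ a₂ a₃).coeff 0 = a₃ ∧ (cub a₁ a₂ a₃).coeff 1 = a₂ ∧ (cub a₁ a₂ a₃).coeff 2 = a₁ ∧
      (cub a₁ a₂ a₃).coeff 3 = 1 := by
  have h : cub a₁ a₂ a₃ = Cubic.toPoly ⟨1, a₁, a₂, a₃⟩ := by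
    simp [cub, Cubic.toPoly]
  rw [h]
  exact ⟨Cubic.coeff_eq_d, Cubic.coeff_eq_c, Cubic.coeff_eq_b, Cubic.coeff_eq_a⟩

theorem eq_cub {R : Type} [CommRing R] {f : R[X]} (hm : f.Monic) (hd : f.natDegree = 3) :
    f = cub (f.coeff 2) (f.coeff 1) (f.coeff 0) := by
  have h3 : f.coeff 3 = 1 := by rw [← hd]; exact hm
  ext i
  obtain ⟨c0, c1, c2, c3⟩ := cub_coeff (f.coeff 2) (f.coeff 1) (f.coeff 0)
  rcases lt_or_ge 3 i with hi | hi
  · rw [coeff_eq_zero_of_natDegree_lt (by omega)]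
    symm
    have h : cub (f.coeff 2) (f.coeff 1) (f.coeff 0) =
        Cubic.toPoly ⟨1, f.coeff 2, f.coeff 1, f.coeff 0⟩ := by
      simp [cub, Cubic.toPoly]
    rw [h]
    exact Cubic.coeff_eq_zero hi
  · interval_cases i
    · exact c0.symm
    · exact c1.symm
    · exact c2.symm
    · rw [h3, c3]

theorem cub_inj {R : Type} [CommRing R] :
    Function.Injective (fun a : R × R × R => cub a.1 a.2.1 a.2.2) := by
  rintro ⟨a, b, c⟩ ⟨a', b', c'⟩ h
  simp only at h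
  obtain ⟨c0, c1, c2, -⟩ := cub_coeff a b c
  obtain ⟨d0, d1, d2, -⟩ := cub_coeff a' b' c'
  have e1 : a = a' := by rw [← c2, ← d2, h]
  have e2 : b = b' := by rw [← c1, ← d1, h]
  have e3 : c = c' := by rw [← c0, ← d0, h]
  rw [e1, e2, e3]

theorem dsc_ne {K : Type} [Field K] [CharZero K] (a₁ a₂ a₃ : K)
    (h : Irreducible (cub a₁ a₂ a₃)) : dsc a₁ a₂ a₃ ≠ 0 := by
  set P : Cubic K := ⟨1, a₁, a₂, a₃⟩ with hP
  have h1 : cub a₁ a₂ a₃ = P.toPoly := by simp [cub, Cubic.toPoly, hP]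
  have h2 : dsc a₁ a₂ a₃ = P.discr := by
    simp only [dsc, Cubic.discr, hP]
    ring
  rw [h2, Cubic.discr_ne_zero_iff_roots_nodup (φ := algebraMap K (AlgebraicClosure K))
    (one_ne_zero : P.a ≠ 0) (IsAlgClosed.splits _), Cubic.map_roots]
  refine Polynomial.nodup_roots ?_
  rw [← h1]
  exact h.separable.map

theorem dsc_map {R S : Type} [CommRing R] [CommRing S] (φ : R →+* S) (a₁ a₂ a₃ : R) :
    φ (dsc a₁ a₂ a₃) = dsc (φ a₁) (φ a₂) (φ a₃) := by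
  simp only [dsc, map_add, map_sub, map_mul, map_pow, map_ofNat]

theorem cub_map {R S : Type} [CommRing R] [CommRing S] (φ : R →+* S) (a₁ a₂ a₃ : R) :
    (cub a₁ a₂ a₃).map φ = cub (φ a₁) (φ a₂) (φ a₃) := by
  simp only [cub, Polynomial.map_add, Polynomial.map_mul, Polynomial.map_pow, map_X, map_C]

/-- A monic polynomial which is irreducible modulo a prime is irreducible. -/
theorem irr_of_md {K : Type} [Field K] [NumberField K] (P : HeightOneSpectrum (𝓞 K))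
    {f ρ : (𝓞 K)[X]} (hf : f.Monic) (hρ : Irreducible (md P.asIdeal ρ))
    (h : Zer P.asIdeal (f - ρ)) : Irreducible (fk K f) := by
  have h1 : md P.asIdeal f = md P.asIdeal ρ := by
    have h3 := (H76.zer_iff_md _ _).1 h
    simp only [md, Polynomial.map_sub] at h3 ⊢
    exact sub_eq_zero.1 h3
  have := P.isPrime
  have h2 : Irreducible f := by
    refine Polynomial.Monic.irreducible_of_irreducible_map (Ideal.Quotient.mk P.asIdeal) f hf ?_
    rw [← h1] at hρ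
    exact hρ
  exact (hf.irreducible_iff_irreducible_map_fraction_map (K := K)).1 h2

/-- Not singular above the primes of `T` and `T'`. -/
theorem not_sing {K : Type} [Field K] [NumberField K] {D : DatN K} {Y : ℕ} (hD : D.Ok)
    {f : (𝓞 K)[X]} (hf : f ∈ FamN D Y) {P : HeightOneSpectrum (𝓞 K)} (hP : P ∈ D.T ∨ P ∈ D.T') :
    ¬ Sing P.asIdeal f := by
  intro hs
  obtain ⟨γ, a, b, c, hγm, hγi, hb, hc, e⟩ := hs
  have hb' : md P.asIdeal b = 0 := (H76.zer_iff_md _ _).1 hb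
  have hc' : md P.asIdeal c = 0 :=
    (H76.zer_iff_md _ _).1 fun i => Ideal.pow_le_self (by norm_num) (hc i)
  have h2 : md P.asIdeal f = (md P.asIdeal γ) ^ 2 * md P.asIdeal a := by
    rw [e]
    simp only [md, Polynomial.map_add, Polynomial.map_mul, Polynomial.map_pow] at hb' hc' ⊢
    rw [hb', hc']
    ring
  have := P.isMaximal
  let := Ideal.Quotient.field P.asIdeal
  have key : Squarefree (md P.asIdeal f) := by
    rcases hP with hP | hP
    · obtain ⟨hm, hd, hi⟩ := hD.2.1 P hP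
      have h1 : md P.asIdeal f = (X - C (Ideal.Quotient.mk P.asIdeal (D.c P))) *
          md P.asIdeal (D.γ P) := by
        have h3 := (H76.zer_iff_md _ _).1 (hf.2.2.2.1 P hP)
        simp only [md, Polynomial.map_sub, Polynomial.map_mul, map_X, map_C] at h3 ⊢
        exact sub_eq_zero.1 h3
      rw [h1, squarefree_mul_iff]
      refine ⟨?_, (irreducible_X_sub_C _).squarefree, hi.squarefree⟩
      apply IsCoprime.isRelPrime
      rw [Irreducible.coprime_iff_not_dvd (irreducible_X_sub_C _)]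
      intro h4
      have h5 := (irreducible_X_sub_C (Ideal.Quotient.mk P.asIdeal (D.c P))).associated_of_dvd hi h4
      have h6 := natDegree_eq_of_degree_eq (degree_eq_degree_of_associated h5)
      rw [natDegree_X_sub_C, md, hm.natDegree_map, hd] at h6
      omega
    · obtain ⟨hm, hd, hi⟩ := hD.2.2.1 P hP
      have h1 : md P.asIdeal f = md P.asIdeal (D.ρ P) := by
        have h3 := (H76.zer_iff_md _ _).1 (hf.2.2.2.2 P hP)
        simp only [md, Polynomial.map_sub] at h3 ⊢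
        exact sub_eq_zero.1 h3
      rw [h1]
      exact hi.squarefree
  rw [h2] at key
  exact hγi.not_isUnit (key (md P.asIdeal γ) ⟨md P.asIdeal a, by ring⟩)

open Classical in
/-- The ideal of the congruence conditions and the family as a product. -/
theorem famN_eq {K : Type} [Field K] [NumberField K] (D : DatN K) (hD : D.Ok) :
    ∃ (I : Ideal (𝓞 K)) (c₁ c₂ c₃ : 𝓞 K), I ≠ ⊥ ∧ I = ∏ P ∈ D.T ∪ D.T', P.asIdeal ∧
      (∀ P : HeightOneSpectrum (𝓞 K), P ∈ D.T ∨ P ∈ D.T' ↔ I ≤ P.asIdeal) ∧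
      ∀ Y : ℕ, FamN D Y = (fun a : 𝓞 K × 𝓞 K × 𝓞 K => cub a.1 a.2.1 a.2.2) ''
        (Cf K 0 (1 / 100) I c₁ Y ×ˢ (Cf K 0 (1 / 100) I c₂ ((Y : ℝ) ^ 2) ×ˢ
          Cf K (-1) (1 / 100) I c₃ ((Y : ℝ) ^ 3))) := by
  set t : HeightOneSpectrum (𝓞 K) → (𝓞 K)[X] := fun P =>
    if P ∈ D.T then (X - C (D.c P)) * D.γ P else D.ρ P with ht
  have htm : ∀ P ∈ D.T ∪ D.T', (t P).Monic ∧ (t P).natDegree = 3 := by
    intro P hP
    rw [ht]
    dsimp only
    split_ifs with h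
    · obtain ⟨hm, hd, -⟩ := hD.2.1 P h
      refine ⟨(monic_X_sub_C _).mul hm, ?_⟩
      rw [(monic_X_sub_C _).natDegree_mul hm, natDegree_X_sub_C, hd]
    · obtain ⟨hm, hd, -⟩ := hD.2.2.1 P ((Finset.mem_union.1 hP).resolve_left h)
      exact ⟨hm, hd⟩
  have hpr : ∀ P ∈ D.T ∪ D.T', Prime P.asIdeal := fun P _ => P.prime
  have hne : ∀ᵉ (P ∈ D.T ∪ D.T') (Q ∈ D.T ∪ D.T'), P ≠ Q → P.asIdeal ≠ Q.asIdeal :=
    fun P _ Q _ h1 h2 => h1 (HeightOneSpectrum.ext h2)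
  have hcrt : ∀ i : ℕ, ∃ y : 𝓞 K, ∀ P ∈ D.T ∪ D.T', y - (t P).coeff i ∈ P.asIdeal := by
    intro i
    obtain ⟨y, hy⟩ := IsDedekindDomain.exists_forall_sub_mem_ideal
      (fun P : HeightOneSpectrum (𝓞 K) => P.asIdeal) (fun _ => 1) hpr hne
      (fun P => (t P).coeff i)
    exact ⟨y, fun P hP => by simpa using hy P hP⟩
  choose c hc using hcrt
  have hI : ∀ a : 𝓞 K, a ∈ ∏ P ∈ D.T ∪ D.T', P.asIdeal ↔ ∀ P ∈ D.T ∪ D.T', a ∈ P.asIdeal := by
    intro a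
    have h := IsDedekindDomain.inf_pow_eq_prod_of_prime (D.T ∪ D.T')
      (fun P : HeightOneSpectrum (𝓞 K) => P.asIdeal) (fun _ => 1) hpr hne
    simp only [pow_one] at h
    rw [← h, Submodule.mem_finsetInf]
  refine ⟨∏ P ∈ D.T ∪ D.T', P.asIdeal, c 2, c 1, c 0, ?_, rfl, ?_, fun Y => ?_⟩
  · exact Finset.prod_ne_zero_iff.2 fun P _ => P.ne_bot
  · intro P
    constructor
    · intro hP a ha
      exact (hI a).1 ha P (Finset.mem_union.2 hP)
    · intro hP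
      obtain ⟨Q, hQ, hQP⟩ := (Ideal.IsPrime.prod_le P.isPrime).1 hP
      have h1 : Q = P := HeightOneSpectrum.ext (Q.isMaximal.eq_of_le P.isPrime.ne_top hQP)
      rw [← h1]
      exact Finset.mem_union.1 hQ
  · ext f
    simp only [FamN, Set.mem_ofPred_eq, Set.mem_image, Set.mem_prod, Prod.exists]
    have hcong : ∀ f : (𝓞 K)[X], f.Monic → f.natDegree = 3 →
        (((∀ P ∈ D.T, Zer P.asIdeal (f - (X - C (D.c P)) * D.γ P)) ∧
          ∀ P ∈ D.T', Zer P.asIdeal (f - D.ρ P)) ↔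
        (f.coeff 2 - c 2 ∈ ∏ P ∈ D.T ∪ D.T', P.asIdeal ∧
          f.coeff 1 - c 1 ∈ ∏ P ∈ D.T ∪ D.T', P.asIdeal ∧
          f.coeff 0 - c 0 ∈ ∏ P ∈ D.T ∪ D.T', P.asIdeal)) := by
      intro f hm hd
      have e1 : ((∀ P ∈ D.T, Zer P.asIdeal (f - (X - C (D.c P)) * D.γ P)) ∧
          ∀ P ∈ D.T', Zer P.asIdeal (f - D.ρ P)) ↔
          ∀ P ∈ D.T ∪ D.T', Zer P.asIdeal (f - t P) := by
        constructor
        · rintro ⟨h1, h2⟩ P hP
          rw [ht]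
          dsimp only
          split_ifs with h
          · exact h1 P h
          · exact h2 P ((Finset.mem_union.1 hP).resolve_left h)
        · intro h1
          refine ⟨fun P hP => ?_, fun P hP => ?_⟩
          · have h2 := h1 P (Finset.mem_union_left _ hP)
            rw [ht] at h2
            dsimp only at h2
            rwa [if_pos hP] at h2
          · have h2 := h1 P (Finset.mem_union_right _ hP)
            rw [ht] at h2
            dsimp only at h2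
            rwa [if_neg (Finset.disjoint_right.1 hD.1 hP)] at h2
      rw [e1, hI, hI, hI]
      constructor
      · intro h
        have h2 : ∀ i, ∀ P ∈ D.T ∪ D.T', f.coeff i - c i ∈ P.asIdeal := by
          intro i P hP
          have h3 := h P hP i
          rw [coeff_sub] at h3
          have h4 := P.asIdeal.sub_mem h3 (hc i P hP)
          have e : f.coeff i - (t P).coeff i - (c i - (t P).coeff i) = f.coeff i - c i := by ring
          rwa [e] at h4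
        exact ⟨h2 2, h2 1, h2 0⟩
      · rintro ⟨h2, h1, h0⟩ P hP i
        rw [coeff_sub]
        obtain ⟨tm, td⟩ := htm P hP
        have key : ∀ j, f.coeff j - c j ∈ P.asIdeal → f.coeff j - (t P).coeff j ∈ P.asIdeal := by
          intro j hj
          have h4 := P.asIdeal.add_mem hj (hc j P hP)
          have e : f.coeff j - c j + (c j - (t P).coeff j) = f.coeff j - (t P).coeff j := by ring
          rwa [e] at h4
        rcases lt_or_ge 3 i with hi | hi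
        · rw [coeff_eq_zero_of_natDegree_lt (by omega), coeff_eq_zero_of_natDegree_lt (by omega),
            sub_zero]
          exact P.asIdeal.zero_mem
        · interval_cases i
          · exact key 0 (h0 P hP)
          · exact key 1 (h1 P hP)
          · exact key 2 (h2 P hP)
          · have e3 : f.coeff 3 = 1 := by rw [← hd]; exact hm
            have e4 : (t P).coeff 3 = 1 := by rw [← td]; exact tm
            rw [e3, e4, sub_self]
            exact P.asIdeal.zero_mem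
    have hnear : ∀ (z : ℝ) (a : 𝓞 K) (W : ℝ), (∀ σ : K →+* ℂ, ‖σ (a : K)‖ ≤ W / 100) ↔
        ∀ σ : K →+* ℂ, ‖σ (a : K) - ((0 : ℝ) * W : ℝ)‖ ≤ (1 / 100) * W := by
      intro z a W
      refine forall_congr' fun σ => ?_
      rw [zero_mul, Complex.ofReal_zero, sub_zero, one_div_mul_eq_div]
    have hnear3 : ∀ (a : 𝓞 K), (∀ σ : K →+* ℂ, ‖σ ((a + (Y : 𝓞 K) ^ 3 : 𝓞 K) : K)‖ ≤
        (Y : ℝ) ^ 3 / 100) ↔
        ∀ σ : K →+* ℂ, ‖σ (a : K) - ((-1 : ℝ) * (Y : ℝ) ^ 3 : ℝ)‖ ≤ (1 / 100) * (Y : ℝ) ^ 3 := by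
      intro a
      refine forall_congr' fun σ => ?_
      have e : σ ((a + (Y : 𝓞 K) ^ 3 : 𝓞 K) : K) = σ (a : K) - ((-1 : ℝ) * (Y : ℝ) ^ 3 : ℝ) := by
        push_cast
        simp only [map_add, map_pow, map_natCast]
        ring
      rw [e, one_div_mul_eq_div]
    constructor
    · rintro ⟨hm, hd, ⟨n2, n1, n0⟩, hT, hT'⟩
      refine ⟨f.coeff 2, f.coeff 1, f.coeff 0, ?_, (eq_cub hm hd).symm⟩
      obtain ⟨g2, g1, g0⟩ := (hcong f hm hd).1 ⟨hT, hT'⟩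
      exact ⟨⟨g2, (hnear 0 _ _).1 n2⟩, ⟨g1, (hnear 0 _ _).1 n1⟩, ⟨g0, (hnear3 _).1 n0⟩⟩
    · rintro ⟨a₁, a₂, a₃, ⟨h1, h2, h3⟩, rfl⟩
      obtain ⟨c0, c1, c2, -⟩ := cub_coeff a₁ a₂ a₃
      obtain ⟨hm, hd⟩ := cub_monic a₁ a₂ a₃
      have hh := (hcong _ hm hd).2 (by rw [c0, c1, c2]; exact ⟨h1.1, h2.1, h3.1⟩)
      refine ⟨hm, hd, ⟨?_, ?_, ?_⟩, hh.1, hh.2⟩
      · rw [c2]; exact (hnear 0 _ _).2 h1.2
      · rw [c1]; exact (hnear 0 _ _).2 h2.2
      · rw [c0]; exact (hnear3 _).2 h3.2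

theorem denn (hSV : SV3Stmt) (hCFU : CFUStmt) (hPRZ : PRZStmt) : DENNStmt := by
  classical
  intro K _ _
  obtain ⟨b, hb⟩ := hSV K 0 0 (-1) (1 / 100) (by norm_num)
  obtain ⟨x₀, hx₀⟩ := hPRZ K 1 one_pos
  have hfin := (hx₀ (max x₀ b) (le_max_left _ _)).1
  obtain ⟨P₀⟩ : Nonempty (HeightOneSpectrum (𝓞 K)) := by
    obtain ⟨M, hM⟩ := Ideal.exists_maximal (𝓞 K)
    exact ⟨⟨M, hM.isPrime, Ring.ne_bot_of_isMaximal_of_not_isField hM
      (RingOfIntegers.not_isField K)⟩⟩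
  refine ⟨insert P₀ hfin.toFinset, fun D hD hA => ?_⟩
  obtain ⟨I, c₁, c₂, c₃, hI0, -, hI, hF⟩ := famN_eq D hD
  obtain ⟨X₀, hX₀⟩ := hb I c₁ c₂ c₃ hI0 (fun P hP => (hI P).1 (Or.inr (hA (by
    rw [Finset.mem_insert, Set.Finite.mem_toFinset]
    right
    change (Ni P.asIdeal : ℝ) ≤ max x₀ b
    exact (Nat.cast_le.2 hP).trans (le_max_right _ _)))))
  obtain ⟨_, _, hU₁⟩ := hCFU K 0 (1 / 100) (by norm_num)
  obtain ⟨_, _, hU₃⟩ := hCFU K (-1) (1 / 100) (by norm_num)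
  obtain ⟨Y₁, hY₁⟩ := exists_nat_ge (max X₀ 1)
  refine ⟨Y₁, fun Y hY => ?_⟩
  have hYr : max X₀ 1 ≤ (Y : ℝ) := hY₁.trans (by exact_mod_cast hY)
  have hYX : X₀ ≤ (Y : ℝ) := (le_max_left _ _).trans hYr
  have hY1 : (1 : ℝ) ≤ (Y : ℝ) := (le_max_right _ _).trans hYr
  have f1 := (hU₁ I c₁ (Y : ℝ) hI0 hY1).1
  have f2 := (hU₁ I c₂ ((Y : ℝ) ^ 2) hI0 (one_le_pow₀ hY1)).1
  have f3 := (hU₃ I c₃ ((Y : ℝ) ^ 3) hI0 (one_le_pow₀ hY1)).1
  have hcard : (FamN D Y).ncard = (Cf K 0 (1 / 100) I c₁ (Y : ℝ)).ncard *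
      (Cf K 0 (1 / 100) I c₂ ((Y : ℝ) ^ 2)).ncard *
      (Cf K (-1) (1 / 100) I c₃ ((Y : ℝ) ^ 3)).ncard := by
    rw [hF Y, Set.ncard_image_of_injective _ cub_inj, Set.ncard_prod, Set.ncard_prod, mul_assoc]
  have hsv := hX₀ (Y : ℝ) hYX
  rw [← hcard] at hsv
  refine le_trans ?_ hsv
  set A : Set (𝓞 K × 𝓞 K × 𝓞 K) := {a | a.1 ∈ Cf K 0 (1 / 100) I c₁ (Y : ℝ) ∧
    a.2.1 ∈ Cf K 0 (1 / 100) I c₂ ((Y : ℝ) ^ 2) ∧
    a.2.2 ∈ Cf K (-1) (1 / 100) I c₃ ((Y : ℝ) ^ 3) ∧ dsc a.1 a.2.1 a.2.2 ≠ 0 ∧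
    ∃ P : HeightOneSpectrum (𝓞 K), ¬ I ≤ P.asIdeal ∧
      Pool.T1.Sing P.asIdeal (cub a.1 a.2.1 a.2.2)} with hAdef
  have hAfin : A.Finite := by
    refine (f1.prod (f2.prod f3)).subset ?_
    rintro ⟨a, a', a''⟩ ⟨h1, h2, h3, -⟩
    exact ⟨h1, h2, h3⟩
  have hsub : {f ∈ FamN D Y | ¬ Smooth f} ⊆
      (fun a : 𝓞 K × 𝓞 K × 𝓞 K => cub a.1 a.2.1 a.2.2) '' A := by
    rintro f ⟨hf, hs⟩
    have hf' := hf
    rw [hF Y] at hf'
    obtain ⟨⟨a₁, a₂, a₃⟩, ⟨h1, h2, h3⟩, rfl⟩ := hf'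
    refine ⟨(a₁, a₂, a₃), ⟨h1, h2, h3, ?_, ?_⟩, rfl⟩
    · have hP₀ : P₀ ∈ D.T' := hA (Finset.mem_insert_self _ _)
      have hirr := irr_of_md P₀ hf.1 (hD.2.2.1 P₀ hP₀).2.2 (hf.2.2.2.2 P₀ hP₀)
      intro h0
      have h4 := dsc_ne (algebraMap (𝓞 K) K a₁) (algebraMap (𝓞 K) K a₂) (algebraMap (𝓞 K) K a₃)
        (by rw [← cub_map]; exact hirr)
      apply h4
      rw [← dsc_map, h0, map_zero]
    · unfold Smooth at hs
      push Not at hs
      obtain ⟨P, hP⟩ := hs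
      refine ⟨P, fun hle => ?_, hP⟩
      exact not_sing hD hf ((hI P).2 hle) hP
  have h1 : {f ∈ FamN D Y | ¬ Smooth f}.ncard ≤ A.ncard :=
    (Set.ncard_le_ncard hsub (hAfin.image _)).trans (Set.ncard_image_le hAfin)
  omega

end Pool.NF
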