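import Pool.Agent.H94.NF.DENN
import Pool.Agent.H24.NF.CF

/-!
# NF: the lower bound for the size of the family
-/

set_option autoImplicit false

namespace Pool.NF

open Polynomial NumberField IsDedekindDomain Pool.T1

/-- FAMLN: the lower bound for the size of the family. -/
def FAMLNStmt : Prop :=
  ∀ (K : Type) [Field K] [NumberField K], ∃ c : ℝ, 0 < c ∧ FamLN K c

theorem famln (hCFL : CFLStmt) : FAMLNStmt := by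
  classical
  intro K _ _
  obtain ⟨C₁, hC₁, hL₁⟩ := hCFL K 0 (1 / 100) (by norm_num)
  obtain ⟨C₃, hC₃, hL₃⟩ := hCFL K (-1) (1 / 100) (by norm_num)
  refine ⟨(C₁ * C₁ * C₃)⁻¹, by positivity, fun D hD => ?_⟩
  obtain ⟨I, c₁, c₂, c₃, hI0, hIe, hI, hF⟩ := famN_eq D hD
  obtain ⟨Y₁, hY₁, h1⟩ := hL₁ I hI0
  obtain ⟨Y₃, hY₃, h3⟩ := hL₃ I hI0
  obtain ⟨Y₀, hY₀⟩ := exists_nat_ge (max Y₁ Y₃)
  refine ⟨Y₀, fun Y hY => ?_⟩
  have hYr : max Y₁ Y₃ ≤ (Y : ℝ) := hY₀.trans (by exact_mod_cast hY)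
  have hY1 : Y₁ ≤ (Y : ℝ) := (le_max_left _ _).trans hYr
  have hY3 : Y₃ ≤ (Y : ℝ) := (le_max_right _ _).trans hYr
  have hYo : (1 : ℝ) ≤ Y := hY₁.trans hY1
  have hpow : ∀ k : ℕ, 1 ≤ k → (Y : ℝ) ≤ (Y : ℝ) ^ k := by
    intro k hk
    calc (Y : ℝ) = (Y : ℝ) ^ 1 := (pow_one _).symm
      _ ≤ (Y : ℝ) ^ k := pow_le_pow_right₀ hYo hk
  refine ⟨?_, ?_⟩
  · rw [hF Y]
    exact ((CF.cf_fin _ _ _ _ _).prod ((CF.cf_fin _ _ _ _ _).prod (CF.cf_fin _ _ _ _ _))).image _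
  · have hcard : (FamN D Y).ncard = (Cf K 0 (1 / 100) I c₁ (Y : ℝ)).ncard *
        (Cf K 0 (1 / 100) I c₂ ((Y : ℝ) ^ 2)).ncard *
        (Cf K (-1) (1 / 100) I c₃ ((Y : ℝ) ^ 3)).ncard := by
      rw [hF Y, Set.ncard_image_of_injective _ cub_inj, Set.ncard_prod, Set.ncard_prod, mul_assoc]
    have hN : (Ni I : ℝ) = (∏ P ∈ D.T, (Nm P : ℝ)) * ∏ P ∈ D.T', (Nm P : ℝ) := by
      rw [← Finset.prod_union hD.1, CF.ni_eq, hIe, map_prod, Nat.cast_prod]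
      refine Finset.prod_congr rfl fun P _ => ?_
      rw [← CF.ni_eq]
      rfl
    have hNI : (0 : ℝ) < Ni I := by exact_mod_cast CF.ni_pos hI0
    have l1 := h1 (Y : ℝ) hY1 c₁
    have l2 := h1 ((Y : ℝ) ^ 2) (hY1.trans (hpow 2 (by norm_num))) c₂
    have l3 := h3 ((Y : ℝ) ^ 3) (hY3.trans (hpow 3 (by norm_num))) c₃
    have hprod : C₁ * ((Y : ℝ) ^ dg K / Ni I) * (C₁ * (((Y : ℝ) ^ 2) ^ dg K / Ni I)) *
        (C₃ * (((Y : ℝ) ^ 3) ^ dg K / Ni I)) ≤ ((FamN D Y).ncard : ℝ) := by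
      rw [hcard, Nat.cast_mul, Nat.cast_mul]
      have p1 : 0 ≤ C₁ * ((Y : ℝ) ^ dg K / Ni I) := by positivity
      have p2 : 0 ≤ C₁ * (((Y : ℝ) ^ 2) ^ dg K / Ni I) := by positivity
      have p3 : 0 ≤ C₃ * (((Y : ℝ) ^ 3) ^ dg K / Ni I) := by positivity
      exact mul_le_mul (mul_le_mul l1 l2 p2 (p1.trans l1)) l3 p3 (by positivity)
    have e3 : (∏ P ∈ D.T, (Nm P : ℝ) ^ 3) * ∏ P ∈ D.T', (Nm P : ℝ) ^ 3 = (Ni I : ℝ) ^ 3 := by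
      rw [Finset.prod_pow, Finset.prod_pow, ← mul_pow, ← hN]
    rw [mul_assoc ((FamN D Y).ncard : ℝ), e3]
    have e6 : (Y : ℝ) ^ (6 * dg K) = (Y : ℝ) ^ dg K * ((Y : ℝ) ^ 2) ^ dg K *
        ((Y : ℝ) ^ 3) ^ dg K := by
      rw [← pow_mul, ← pow_mul, ← pow_add, ← pow_add]
      congr 1
      ring
    have e7 : C₁ * ((Y : ℝ) ^ dg K / Ni I) * (C₁ * (((Y : ℝ) ^ 2) ^ dg K / Ni I)) *
        (C₃ * (((Y : ℝ) ^ 3) ^ dg K / Ni I)) =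
        (C₁ * C₁ * C₃) * ((Y : ℝ) ^ (6 * dg K)) / (Ni I : ℝ) ^ 3 := by
      rw [e6]
      field_simp
    rw [e7, div_le_iff₀ (by positivity)] at hprod
    rw [inv_mul_eq_div, le_div_iff₀ (by positivity)]
    linarith

end Pool.NF
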