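import Pool.Agent.H41.NF.Bad

/-!
# NF: few polynomials of the family have a bad class
-/

set_option autoImplicit false

namespace Pool.NF

open Polynomial Matrix Pool.HYP Pool.TOW Pool.AVS Pool.T1 IsDedekindDomain NumberField

theorem badn : BADNStmt := by
  classical
  intro hNST hNCNT K _ _ ⟨B, hKey⟩ ⟨c₂, hL⟩ hirr T'
  set C : ℝ := max B 1 with hC
  have hC1 : 1 ≤ C := le_max_right _ _
  have hBC : B ≤ C := le_max_left _ _
  obtain ⟨c₁, hc₁, hcnt⟩ := hNCNT K C hC1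
  set M : ℝ := ∏ P ∈ T', (Nm P : ℝ) ^ 3 with hM
  obtain ⟨k₀, hk₀⟩ : ∃ k₀ : ℕ, 8 * c₁ * c₂ * M ≤ 2 ^ k₀ := by
    obtain ⟨k, hk⟩ := pow_unbounded_of_one_lt (8 * c₁ * c₂ * M) (one_lt_two : (1 : ℝ) < 2)
    exact ⟨k, hk.le⟩
  obtain ⟨b, hb⟩ := exists_nat_ge B
  refine ⟨k₀, b, fun D hD hDT hk hT => ?_⟩
  set E : TDat K := ⟨D.T, D.c, D.γ⟩ with hE
  have hEok : E.Ok := by
    intro P hP
    refine ⟨hD.2.1 P hP, fun h2 => ?_, (hT P hP).2⟩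
    exact Finset.disjoint_left.1 hD.1 hP (hD.2.2.2 P (Or.inl h2))
  obtain ⟨x₀, hx₀⟩ := hcnt E hEok
  obtain ⟨Y₀, hY₀⟩ := hL D hD
  obtain ⟨Y₁, hY₁⟩ := exists_nat_ge (max x₀ 1)
  refine ⟨max Y₀ Y₁, fun Y hY => ?_⟩
  have hYr : max x₀ 1 ≤ (Y : ℝ) := hY₁.trans (by exact_mod_cast (le_max_right _ _).trans hY)
  have hYx : x₀ ≤ (Y : ℝ) := (le_max_left _ _).trans hYr
  have hY1 : (1 : ℝ) ≤ (Y : ℝ) := (le_max_right _ _).trans hYr
  have hY1' : 1 ≤ Y := by exact_mod_cast hY1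
  obtain ⟨hfin, hcard⟩ := hx₀ (Y : ℝ) hYx (FamN D Y) (hirr D Y hD)
  obtain ⟨-, hfam⟩ := hY₀ Y ((le_max_left _ _).trans hY)
  have hsub : {f ∈ FamN D Y | Bad K D.T f} ⊆ BFn C (Y : ℝ) E (FamN D Y) := by
    rintro f ⟨hf, hbad⟩
    obtain ⟨d, G, S, hd, hds, hG, hS, hGb, hSb, hdet, hpen, hstd, hnz⟩ :=
      hKey D Y hD hY1' (fun P hP => lt_of_le_of_lt hb (by exact_mod_cast (hT P hP).1)) f hf hbad
    refine ⟨hf, fun i => (d i : ℝ), (G, S), fun i j hij => Int.cast_le.2 (hd hij), ?_,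
      ⟨hG, hS, fun i j σ => ?_, fun i j σ => ?_, fun P hP => ?_⟩, hdet, hpen, hnz⟩
    · rw [Fin.sum_univ_three] at hds
      push_cast at hds
      exact hds.trans hBC
    · refine (hGb i j σ).trans ?_
      push_cast
      exact mul_le_mul_of_nonneg_right hBC (Real.exp_pos _).le
    · refine (hSb i j σ).trans ?_
      push_cast
      have e : C * (Y : ℝ) * Real.exp ((d i : ℝ) + (d j : ℝ)) =
        C * Real.exp ((d i : ℝ) + (d j : ℝ)) * Y := by ring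
      rw [e]
      exact mul_le_mul_of_nonneg_right
        (mul_le_mul_of_nonneg_right hBC (Real.exp_pos _).le) (by linarith)
    · obtain ⟨hm, hdg, -⟩ := hD.2.1 P hP
      refine hNST (𝓞 K) P.asIdeal 3 f ((X - Polynomial.C (D.c P)) * D.γ P) G S P.isPrime.ne_top hf.1
        ((monic_X_sub_C _).mul hm) hf.2.1 ?_ (hf.2.2.2.1 P hP) (hstd P hP)
      rw [(monic_X_sub_C _).natDegree_mul hm, natDegree_X_sub_C, hdg]
  have hle : {f ∈ FamN D Y | Bad K D.T f}.ncard ≤ (BFn C (Y : ℝ) E (FamN D Y)).ncard :=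
    Set.ncard_le_ncard hsub hfin
  have hN : (E.N : ℝ) ^ 3 = ∏ P ∈ D.T, (Nm P : ℝ) ^ 3 := by
    rw [Finset.prod_pow, TDat.N, Nat.cast_prod]
    rfl
  have hNpos : (0 : ℝ) < (E.N : ℝ) ^ 3 := by
    have : 0 < E.N := Finset.prod_pos fun P hP => by
      have h1 := (hEok P hP).2.2
      have h2 : 0 < E.T.card := Finset.card_pos.2 ⟨P, hP⟩
      omega
    have h : (0 : ℝ) < (E.N : ℝ) := by exact_mod_cast this
    positivity
  rw [← hN, hDT, ← hM] at hfam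
  have hbad : (({f ∈ FamN D Y | Bad K D.T f}.ncard : ℕ) : ℝ) ≤
      ((BFn C (Y : ℝ) E (FamN D Y)).ncard : ℝ) := by exact_mod_cast hle
  set x : ℝ := (({f ∈ FamN D Y | Bad K D.T f}.ncard : ℕ) : ℝ) with hx
  set F : ℝ := ((FamN D Y).ncard : ℝ) with hF
  have hF0 : 0 ≤ F := by positivity
  have hET : E.T.card = D.T.card := rfl
  have h2k : (2 : ℝ) ^ k₀ ≤ 2 ^ D.T.card := pow_le_pow_right₀ one_le_two hk
  have h1 : (2 : ℝ) ^ D.T.card * x * (E.N : ℝ) ^ 3 ≤ c₁ * (c₂ * (F * (E.N : ℝ) ^ 3 * M)) := by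
    calc (2 : ℝ) ^ D.T.card * x * (E.N : ℝ) ^ 3
        ≤ 2 ^ D.T.card * ((BFn C (Y : ℝ) E (FamN D Y)).ncard : ℝ) * (E.N : ℝ) ^ 3 := by
          gcongr
      _ ≤ c₁ * (Y : ℝ) ^ (6 * dg K) := hcard
      _ ≤ _ := by
          refine mul_le_mul_of_nonneg_left ?_ hc₁.le
          exact hfam
  have h2 : (2 : ℝ) ^ D.T.card * x ≤ c₁ * c₂ * M * F := by
    refine le_of_mul_le_mul_right ?_ hNpos
    calc (2 : ℝ) ^ D.T.card * x * (E.N : ℝ) ^ 3 ≤ c₁ * (c₂ * (F * (E.N : ℝ) ^ 3 * M)) := h1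
      _ = _ := by ring
  have h3 : (2 : ℝ) ^ D.T.card * (8 * x) ≤ 2 ^ D.T.card * F := by
    calc (2 : ℝ) ^ D.T.card * (8 * x) = 8 * (2 ^ D.T.card * x) := by ring
      _ ≤ 8 * (c₁ * c₂ * M * F) := by linarith
      _ = (8 * c₁ * c₂ * M) * F := by ring
      _ ≤ 2 ^ D.T.card * F := mul_le_mul_of_nonneg_right (hk₀.trans h2k) hF0
  have h4 : 8 * x ≤ F := le_of_mul_le_mul_left h3 (by positivity)
  rw [hx, hF] at h4
  exact_mod_cast h4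

end Pool.NF
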