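import Pool.Agent.H94.NF.S
import Pool.Agent.H94.HYP.DenF

/-!
# NF, row SV3: few cubic polynomials are singular above a prime which does not divide `I`
-/

set_option autoImplicit false

namespace Pool.NF

open Polynomial NumberField IsDedekindDomain

theorem sv3_box {K : Type} [Field K] [NumberField K] {z η B Y : ℝ} (hY : 0 ≤ Y)
    (hB : |z| + η ≤ B) {I : Ideal (𝓞 K)} {c a : 𝓞 K} (ha : a ∈ Cf K z η I c Y) :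
    a ∈ Bx K (B * Y) := by
  intro σ
  have h1 := ha.2 σ
  have h2 : ‖((z * Y : ℝ) : ℂ)‖ = |z| * Y := by
    rw [Complex.norm_real, Real.norm_eq_abs, abs_mul, abs_of_nonneg hY]
  have h3 : ‖σ (a : K)‖ ≤ ‖σ (a : K) - ((z * Y : ℝ) : ℂ)‖ + ‖((z * Y : ℝ) : ℂ)‖ := by
    have := norm_add_le (σ (a : K) - ((z * Y : ℝ) : ℂ)) ((z * Y : ℝ) : ℂ)
    rwa [sub_add_cancel] at this
  rw [h2] at h3
  nlinarith

/-- The bound for given `a₁`, `a₂`. -/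
theorem sv3_fib {K : Type} [Field K] [NumberField K] (hSG : SG3Stmt) (hNRM : NRMStmt)
    {z₁ z₂ z₃ η B C₁ C₂ C₃ X : ℝ} {I : Ideal (𝓞 K)} {c₁ c₂ c₃ a₁ a₂ : 𝓞 K} {b : ℕ} (hX : 1 ≤ X)
    (hB₁ : |z₁| + η ≤ B) (hB₂ : |z₂| + η ≤ B) (hB₃ : |z₃| + η ≤ B) (hC₁ : 0 < C₁)
    (hb3 : (3 : ℝ) ^ dg K ≤ b)
    (hCFU : (Cf K z₃ η I c₃ (X ^ 3)).Finite ∧
      ∀ P : HeightOneSpectrum (𝓞 K), ¬ I ≤ P.asIdeal → ∀ s : 𝓞 K,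
        ({a ∈ Cf K z₃ η I c₃ (X ^ 3) | a - s ∈ P.asIdeal ^ 2}.ncard : ℝ) ≤
          C₁ * (1 + (X ^ 3) ^ dg K / (Ni I * (Ni P.asIdeal : ℝ) ^ 2)))
    (hCFL : C₂ * ((X ^ 3) ^ dg K / Ni I) ≤ (Cf K z₃ η I c₃ (X ^ 3)).ncard)
    (hDB : ∀ (a₁ a₂ a₃ : 𝓞 K) (Y : ℝ), 1 ≤ Y → a₁ ∈ Bx K (B * Y) → a₂ ∈ Bx K (B * Y ^ 2) →
      a₃ ∈ Bx K (B * Y ^ 3) → dsc a₁ a₂ a₃ ≠ 0 → ∀ P : HeightOneSpectrum (𝓞 K),
      Pool.T1.Sing P.asIdeal (cub a₁ a₂ a₃) → (Ni P.asIdeal : ℝ) ≤ C₃ * (Y ^ 3) ^ dg K)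
    (hI : ∀ P : HeightOneSpectrum (𝓞 K), Ni P.asIdeal ≤ b → I ≤ P.asIdeal)
    (hPRS : ∀ S : Finset (HeightOneSpectrum (𝓞 K)), (∀ P ∈ S, (b : ℝ) < (Ni P.asIdeal : ℝ)) →
      ∑ P ∈ S, ((Ni P.asIdeal : ℝ) ^ 2)⁻¹ ≤ C₂ / (32 * C₁))
    (hPRZ : {P : HeightOneSpectrum (𝓞 K) |
        (Ni P.asIdeal : ℝ) ≤ C₃ * (X ^ 3) ^ dg K}.Finite ∧
      ({P : HeightOneSpectrum (𝓞 K) | (Ni P.asIdeal : ℝ) ≤ C₃ * (X ^ 3) ^ dg K}.ncard : ℝ) ≤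
        C₂ / (32 * C₁ * C₃ * Ni I) * (C₃ * (X ^ 3) ^ dg K)) (hC₃ : 0 < C₃) (hNI : 0 < Ni I)
    (ha₁ : a₁ ∈ Cf K z₁ η I c₁ X) (ha₂ : a₂ ∈ Cf K z₂ η I c₂ (X ^ 2)) :
    8 * {a ∈ Cf K z₃ η I c₃ (X ^ 3) | dsc a₁ a₂ a ≠ 0 ∧
      ∃ P : HeightOneSpectrum (𝓞 K), ¬ I ≤ P.asIdeal ∧
        Pool.T1.Sing P.asIdeal (cub a₁ a₂ a)}.ncard ≤ (Cf K z₃ η I c₃ (X ^ 3)).ncard := by
  classical
  obtain ⟨hAf, hU⟩ := hCFU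
  obtain ⟨hPf, hPc⟩ := hPRZ
  set A := Cf K z₃ η I c₃ (X ^ 3) with hA
  set Z : ℝ := (X ^ 3) ^ dg K with hZ
  have hZ0 : 0 < Z := by positivity
  set PP := hPf.toFinset.filter fun P => ¬ I ≤ P.asIdeal with hPP
  have hbig : ∀ P : HeightOneSpectrum (𝓞 K), ¬ I ≤ P.asIdeal → b < Ni P.asIdeal := by
    intro P hP
    by_contra h
    exact hP (hI P (not_lt.1 h))
  have h3P : ∀ P : HeightOneSpectrum (𝓞 K), ¬ I ≤ P.asIdeal → (3 : 𝓞 K) ∉ P.asIdeal := by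
    intro P hP h3
    have h4 : (3 : 𝓞 K) ∈ Bx K 3 := by
      intro σ
      have : σ ((3 : 𝓞 K) : K) = 3 := by
        rw [show ((3 : 𝓞 K) : K) = 3 from rfl, map_ofNat]
      rw [this]
      simp
    have h5 := ((hNRM K (3 : 𝓞 K) 3 h4).2 (by norm_num)).2 P.asIdeal h3
    have h6 : (Ni P.asIdeal : ℝ) ≤ b := h5.trans hb3
    exact absurd (hbig P hP) (not_lt.2 (by exact_mod_cast h6))
  have hs : ∀ P : HeightOneSpectrum (𝓞 K), ∃ s₁ s₂ : 𝓞 K, ¬ I ≤ P.asIdeal →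
      ∀ a₃ : 𝓞 K, Pool.T1.Sing P.asIdeal (cub a₁ a₂ a₃) →
      a₃ - s₁ ∈ P.asIdeal ^ 2 ∨ a₃ - s₂ ∈ P.asIdeal ^ 2 := by
    intro P
    by_cases hP : I ≤ P.asIdeal
    · exact ⟨0, 0, fun h => absurd hP h⟩
    · obtain ⟨s₁, s₂, h⟩ := hSG (𝓞 K) P.asIdeal P.isMaximal (h3P P hP) a₁ a₂
      exact ⟨s₁, s₂, fun _ => h⟩
  choose s₁ s₂ hs using hs
  let Bs : HeightOneSpectrum (𝓞 K) → Set (𝓞 K) := fun P =>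
    {a ∈ A | a - s₁ P ∈ P.asIdeal ^ 2} ∪ {a ∈ A | a - s₂ P ∈ P.asIdeal ^ 2}
  have hBfin : ∀ P, (Bs P).Finite := fun P =>
    (hAf.subset (Set.sep_subset _ _)).union (hAf.subset (Set.sep_subset _ _))
  have hsub : {a ∈ A | dsc a₁ a₂ a ≠ 0 ∧ ∃ P : HeightOneSpectrum (𝓞 K), ¬ I ≤ P.asIdeal ∧
      Pool.T1.Sing P.asIdeal (cub a₁ a₂ a)} ⊆ ⋃ P ∈ PP, Bs P := by
    rintro a ⟨ha, hd, P, hP, hS⟩
    simp only [Set.mem_iUnion]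
    have h1 : (Ni P.asIdeal : ℝ) ≤ C₃ * Z :=
      hDB a₁ a₂ a X hX (sv3_box (by linarith) hB₁ ha₁) (sv3_box (by positivity) hB₂ ha₂)
        (sv3_box (by positivity) hB₃ ha) hd P hS
    refine ⟨P, Finset.mem_filter.2 ⟨hPf.mem_toFinset.2 h1, hP⟩, ?_⟩
    rcases hs P hP a hS with h | h
    · exact Or.inl ⟨ha, h⟩
    · exact Or.inr ⟨ha, h⟩
  obtain ⟨h1, h2⟩ := Pool.HYP.Den.ncard_bU PP Bs fun P _ => hBfin P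
  have h3 := (Set.ncard_le_ncard hsub h2).trans h1
  have h4 : ∀ P ∈ PP, ((Bs P).ncard : ℝ) ≤
      2 * C₁ + 2 * C₁ * (Z / Ni I) * ((Ni P.asIdeal : ℝ) ^ 2)⁻¹ := by
    intro P hP
    obtain ⟨hP1, hP2⟩ := Finset.mem_filter.1 hP
    have h5 := hU P hP2 (s₁ P)
    have h6 := hU P hP2 (s₂ P)
    have h7 : ((Bs P).ncard : ℝ) ≤ (({a ∈ A | a - s₁ P ∈ P.asIdeal ^ 2}.ncard : ℝ)) +
        ({a ∈ A | a - s₂ P ∈ P.asIdeal ^ 2}.ncard : ℝ) := by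
      exact_mod_cast Set.ncard_union_le _ _
    have h8 : (0 : ℝ) < Ni P.asIdeal := by
      have := hbig P hP2
      exact_mod_cast lt_of_le_of_lt (Nat.zero_le _) this
    have h9 : (0 : ℝ) < Ni I := by exact_mod_cast hNI
    have h10 : C₁ * (1 + Z / (Ni I * (Ni P.asIdeal : ℝ) ^ 2)) =
        C₁ + C₁ * (Z / Ni I) * ((Ni P.asIdeal : ℝ) ^ 2)⁻¹ := by
      field_simp
    rw [h10] at h5 h6
    linarith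
  have h5 : (({a ∈ A | dsc a₁ a₂ a ≠ 0 ∧ ∃ P : HeightOneSpectrum (𝓞 K), ¬ I ≤ P.asIdeal ∧
      Pool.T1.Sing P.asIdeal (cub a₁ a₂ a)}.ncard : ℕ) : ℝ) ≤
      2 * C₁ * PP.card + 2 * C₁ * (Z / Ni I) * ∑ P ∈ PP, ((Ni P.asIdeal : ℝ) ^ 2)⁻¹ := by
    have h6 : (({a ∈ A | dsc a₁ a₂ a ≠ 0 ∧ ∃ P : HeightOneSpectrum (𝓞 K), ¬ I ≤ P.asIdeal ∧
        Pool.T1.Sing P.asIdeal (cub a₁ a₂ a)}.ncard : ℕ) : ℝ) ≤
        ∑ P ∈ PP, ((Bs P).ncard : ℝ) := by exact_mod_cast h3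
    refine h6.trans ((Finset.sum_le_sum h4).trans ?_)
    rw [Finset.sum_add_distrib, Finset.sum_const, nsmul_eq_mul, ← Finset.mul_sum]
    apply le_of_eq
    ring
  have h6 : (PP.card : ℝ) ≤ C₂ / (32 * C₁ * C₃ * Ni I) * (C₃ * Z) := by
    refine le_trans ?_ hPc
    rw [Set.ncard_eq_toFinset_card _ hPf]
    exact_mod_cast Finset.card_filter_le _ _
  have h7 : ∑ P ∈ PP, ((Ni P.asIdeal : ℝ) ^ 2)⁻¹ ≤ C₂ / (32 * C₁) := by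
    apply hPRS
    intro P hP
    exact_mod_cast hbig P (Finset.mem_filter.1 hP).2
  have h9 : (0 : ℝ) < Ni I := by exact_mod_cast hNI
  have h10 : 2 * C₁ * (PP.card : ℝ) ≤ C₂ * (Z / Ni I) / 16 := by
    have h11 : 2 * C₁ * (PP.card : ℝ) ≤ 2 * C₁ * (C₂ / (32 * C₁ * C₃ * Ni I) * (C₃ * Z)) :=
      mul_le_mul_of_nonneg_left h6 (by positivity)
    refine h11.trans (le_of_eq ?_)
    field_simp
    ring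
  have h12 : 2 * C₁ * (Z / Ni I) * ∑ P ∈ PP, ((Ni P.asIdeal : ℝ) ^ 2)⁻¹ ≤
      C₂ * (Z / Ni I) / 16 := by
    have h13 : 2 * C₁ * (Z / Ni I) * ∑ P ∈ PP, ((Ni P.asIdeal : ℝ) ^ 2)⁻¹ ≤
        2 * C₁ * (Z / Ni I) * (C₂ / (32 * C₁)) :=
      mul_le_mul_of_nonneg_left h7 (by positivity)
    refine h13.trans (le_of_eq ?_)
    field_simp
    ring
  have h14 : (8 : ℝ) * ({a ∈ A | dsc a₁ a₂ a ≠ 0 ∧ ∃ P : HeightOneSpectrum (𝓞 K),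
      ¬ I ≤ P.asIdeal ∧ Pool.T1.Sing P.asIdeal (cub a₁ a₂ a)}.ncard : ℝ) ≤ A.ncard := by
    linarith
  exact_mod_cast h14

/-- **SV3**. -/
theorem sv3 (hSG : SG3Stmt) (hDB3 : DB3Stmt) (hCFU : CFUStmt) (hCFL : CFLStmt)
    (hPRS : PRSStmt) (hPRZ : PRZStmt) (hNRM : NRMStmt) : SV3Stmt := by
  classical
  intro K _ _ z₁ z₂ z₃ η hη
  set B : ℝ := |z₁| + |z₂| + |z₃| + η with hB
  have hB0 : 0 < B := by positivity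
  obtain ⟨C₁, hC₁, hU₃⟩ := hCFU K z₃ η hη
  obtain ⟨_, _, hU₁⟩ := hCFU K z₁ η hη
  obtain ⟨_, _, hU₂⟩ := hCFU K z₂ η hη
  obtain ⟨C₂, hC₂, hL⟩ := hCFL K z₃ η hη
  obtain ⟨C₃, hC₃, hD⟩ := hDB3 K B hB0
  obtain ⟨b₀, hb₀⟩ := hPRS K (C₂ / (32 * C₁)) (by positivity)
  obtain ⟨b₁, hb₁⟩ := exists_nat_ge (max b₀ ((3 : ℝ) ^ dg K))
  refine ⟨b₁, fun I c₁ c₂ c₃ hI0 hI => ?_⟩
  have hNI : 0 < Ni I := by
    unfold Ni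
    have : Finite (𝓞 K ⧸ I) := Ideal.finiteQuotientOfFreeOfNeBot I hI0
    exact Nat.card_pos
  have hNIr : (0 : ℝ) < Ni I := by exact_mod_cast hNI
  obtain ⟨Y₀, hY₀, hL'⟩ := hL I hI0
  obtain ⟨x₀, hx₀⟩ := hPRZ K (C₂ / (32 * C₁ * C₃ * Ni I)) (by positivity)
  have hn : 1 ≤ dg K := Module.finrank_pos
  refine ⟨max Y₀ (max 1 (x₀ / C₃)), fun X hX => ?_⟩
  have hX1 : 1 ≤ X := le_trans (le_max_left _ _) (le_trans (le_max_right _ _) hX)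
  have hXY : Y₀ ≤ X := (le_max_left _ _).trans hX
  have hXx : x₀ / C₃ ≤ X := (le_max_right _ _).trans ((le_max_right _ _).trans hX)
  have hX3 : X ≤ X ^ 3 := by
    calc X = X ^ 1 := (pow_one X).symm
      _ ≤ X ^ 3 := pow_le_pow_right₀ hX1 (by norm_num)
  have hX31 : 1 ≤ X ^ 3 := one_le_pow₀ hX1
  have hZX : X ≤ (X ^ 3) ^ dg K := by
    refine hX3.trans ?_
    calc X ^ 3 = (X ^ 3) ^ 1 := (pow_one _).symm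
      _ ≤ (X ^ 3) ^ dg K := pow_le_pow_right₀ hX31 hn
  have hx : x₀ ≤ C₃ * (X ^ 3) ^ dg K := by
    rw [div_le_iff₀ hC₃] at hXx
    nlinarith
  have hfib := fun (a₁ a₂ : 𝓞 K) (ha₁ : a₁ ∈ Cf K z₁ η I c₁ X)
      (ha₂ : a₂ ∈ Cf K z₂ η I c₂ (X ^ 2)) =>
    sv3_fib (K := K) hSG hNRM (B := B) (C₁ := C₁) (C₂ := C₂) (C₃ := C₃) (b := b₁) (c₃ := c₃)
      (z₃ := z₃) hX1
      (by rw [hB]; have := abs_nonneg z₂; have := abs_nonneg z₃; linarith)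
      (by rw [hB]; have := abs_nonneg z₁; have := abs_nonneg z₃; linarith)
      (by rw [hB]; have := abs_nonneg z₁; have := abs_nonneg z₂; linarith) hC₁
      ((le_max_right _ _).trans hb₁) (hU₃ I c₃ (X ^ 3) hI0 hX31)
      (hL' (X ^ 3) (hXY.trans hX3) c₃) hD hI
      (fun S hS => hb₀ S (fun P hP => lt_of_le_of_lt ((le_max_left _ _).trans hb₁) (hS P hP)))
      (hx₀ _ hx) hC₃ hNI ha₁ ha₂
  have hf₁ : (Cf K z₁ η I c₁ X).Finite := (hU₁ I c₁ X hI0 hX1).1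
  have hf₂ : (Cf K z₂ η I c₂ (X ^ 2)).Finite := (hU₂ I c₂ (X ^ 2) hI0 (one_le_pow₀ hX1)).1
  have hf₃ : (Cf K z₃ η I c₃ (X ^ 3)).Finite := (hU₃ I c₃ (X ^ 3) hI0 hX31).1
  set A₃ := Cf K z₃ η I c₃ (X ^ 3) with hA₃
  let FF : Finset (𝓞 K × 𝓞 K) := hf₁.toFinset ×ˢ hf₂.toFinset
  let Bs : 𝓞 K × 𝓞 K → Set (𝓞 K) := fun x => {a ∈ A₃ | dsc x.1 x.2 a ≠ 0 ∧
      ∃ P : HeightOneSpectrum (𝓞 K), ¬ I ≤ P.asIdeal ∧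
        Pool.T1.Sing P.asIdeal (cub x.1 x.2 a)}
  have hBfin : ∀ x, (Bs x).Finite := fun x => hf₃.subset (Set.sep_subset _ _)
  have hsub : {a : 𝓞 K × 𝓞 K × 𝓞 K | a.1 ∈ Cf K z₁ η I c₁ X ∧
      a.2.1 ∈ Cf K z₂ η I c₂ (X ^ 2) ∧ a.2.2 ∈ A₃ ∧ dsc a.1 a.2.1 a.2.2 ≠ 0 ∧
      ∃ P : HeightOneSpectrum (𝓞 K), ¬ I ≤ P.asIdeal ∧
        Pool.T1.Sing P.asIdeal (cub a.1 a.2.1 a.2.2)} ⊆
      ⋃ x ∈ FF, (fun a => (x.1, x.2, a)) '' Bs x := by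
    rintro ⟨a₁, a₂, a₃⟩ ⟨h1, h2, h3, h4, h5⟩
    simp only [Set.mem_iUnion]
    exact ⟨(a₁, a₂), Finset.mem_product.2 ⟨hf₁.mem_toFinset.2 h1, hf₂.mem_toFinset.2 h2⟩, a₃,
      ⟨h3, h4, h5⟩, rfl⟩
  obtain ⟨h1, h2⟩ := Pool.HYP.Den.ncard_bU FF (fun x => (fun a => (x.1, x.2, a)) '' Bs x)
    fun x _ => (hBfin x).image _
  have h3 := (Set.ncard_le_ncard hsub h2).trans h1
  have h4 : ∀ x ∈ FF, 8 * ((fun a => (x.1, x.2, a)) '' Bs x).ncard ≤ A₃.ncard := by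
    intro x hx'
    obtain ⟨hx1, hx2⟩ := Finset.mem_product.1 hx'
    have h5 := hfib x.1 x.2 (hf₁.mem_toFinset.1 hx1) (hf₂.mem_toFinset.1 hx2)
    have h6 : ((fun a => (x.1, x.2, a)) '' Bs x).ncard ≤ (Bs x).ncard :=
      Set.ncard_image_le (hBfin x)
    exact le_trans (Nat.mul_le_mul_left _ h6) h5
  calc 8 * _ ≤ 8 * ∑ x ∈ FF, ((fun a => (x.1, x.2, a)) '' Bs x).ncard := Nat.mul_le_mul_left _ h3
    _ = ∑ x ∈ FF, 8 * ((fun a => (x.1, x.2, a)) '' Bs x).ncard := Finset.mul_sum _ _ _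
    _ ≤ ∑ _x ∈ FF, A₃.ncard := Finset.sum_le_sum h4
    _ = (Cf K z₁ η I c₁ X).ncard * (Cf K z₂ η I c₂ (X ^ 2)).ncard * A₃.ncard := by
        rw [Finset.sum_const, smul_eq_mul, Finset.card_product,
          Set.ncard_eq_toFinset_card _ hf₁, Set.ncard_eq_toFinset_card _ hf₂]

end Pool.NF
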