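import Pool.Agent.H29.T1.Base
import Pool.Agent.H17.NF.N

/-!
# NF: statements of the sieve (the cubic polynomials which are singular above a prime)
-/

set_option autoImplicit false

namespace Pool.NF

open Polynomial NumberField IsDedekindDomain

section Defs

/-- The cubic polynomial. -/
noncomputable def cub {R : Type} [CommRing R] (a₁ a₂ a₃ : R) : R[X] :=
  X ^ 3 + C a₁ * X ^ 2 + C a₂ * X + C a₃

/-- Its discriminant. -/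
def dsc {R : Type} [CommRing R] (a₁ a₂ a₃ : R) : R :=
  a₁ ^ 2 * a₂ ^ 2 - 4 * a₂ ^ 3 - 4 * a₁ ^ 3 * a₃ - 27 * a₃ ^ 2 + 18 * a₁ * a₂ * a₃

/-- The elements of the class of `c` modulo `I` all of whose conjugates are near `z Y`. -/
def Cf (K : Type) [Field K] [NumberField K] (z η : ℝ) (I : Ideal (𝓞 K)) (c : 𝓞 K) (Y : ℝ) :
    Set (𝓞 K) :=
  {a | a - c ∈ I ∧ ∀ σ : K →+* ℂ, ‖σ (a : K) - (z * Y : ℝ)‖ ≤ η * Y}

end Defs

/-- PT3: a singular cubic polynomial has a double root modulo `P` in a strong sense.  (Modulo `P` the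
degree of `γ` is one.) -/
def PT3Stmt : Prop :=
  ∀ (R : Type) [CommRing R] (P : Ideal R), P.IsMaximal → ∀ a₁ a₂ a₃ : R,
    Pool.T1.Sing P (cub a₁ a₂ a₃) →
    ∃ r : R, r ^ 3 + a₁ * r ^ 2 + a₂ * r + a₃ ∈ P ^ 2 ∧ 3 * r ^ 2 + 2 * a₁ * r + a₂ ∈ P

/-- SG3: given `a₁`, `a₂` the polynomial is singular above `P` for at most two classes of `a₃` modulo
`P ^ 2`.  (The derivative has at most two roots modulo `P`; the class of `f(r)` modulo `P ^ 2` depends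
on the class of the root `r` modulo `P` only.) -/
def SG3Stmt : Prop :=
  ∀ (R : Type) [CommRing R] (P : Ideal R), P.IsMaximal → (3 : R) ∉ P → ∀ a₁ a₂ : R,
    ∃ s₁ s₂ : R, ∀ a₃ : R, Pool.T1.Sing P (cub a₁ a₂ a₃) →
      a₃ - s₁ ∈ P ^ 2 ∨ a₃ - s₂ ∈ P ^ 2

/-- DS3: the discriminant of a singular polynomial.  (Translate `x` by the root of PT3.) -/
def DS3Stmt : Prop :=
  ∀ (R : Type) [CommRing R] (P : Ideal R), P.IsMaximal → ∀ a₁ a₂ a₃ : R,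
    Pool.T1.Sing P (cub a₁ a₂ a₃) → dsc a₁ a₂ a₃ ∈ P ^ 2

/-- DB3: the size of the primes above which the polynomial may be singular.  (DS3, NRM.) -/
def DB3Stmt : Prop :=
  ∀ (K : Type) [Field K] [NumberField K] (B : ℝ), 0 < B → ∃ C : ℝ, 0 < C ∧
    ∀ (a₁ a₂ a₃ : 𝓞 K) (Y : ℝ), 1 ≤ Y → a₁ ∈ Bx K (B * Y) → a₂ ∈ Bx K (B * Y ^ 2) →
    a₃ ∈ Bx K (B * Y ^ 3) → dsc a₁ a₂ a₃ ≠ 0 → ∀ P : HeightOneSpectrum (𝓞 K),
    Pool.T1.Sing P.asIdeal (cub a₁ a₂ a₃) → (Ni P.asIdeal : ℝ) ≤ C * (Y ^ 3) ^ dg K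

/-- CFU: upper bounds for the number of elements.  (BXU: translate by one element of the set, the
radius is at most `2 η Y`; `I ⊓ P ^ 2 = I * P ^ 2`.) -/
def CFUStmt : Prop :=
  ∀ (K : Type) [Field K] [NumberField K] (z η : ℝ), 0 < η → ∃ C : ℝ, 0 < C ∧
    ∀ (I : Ideal (𝓞 K)) (c : 𝓞 K) (Y : ℝ), I ≠ ⊥ → 1 ≤ Y → (Cf K z η I c Y).Finite ∧
      ∀ P : HeightOneSpectrum (𝓞 K), ¬ I ≤ P.asIdeal → ∀ s : 𝓞 K,
        ({a ∈ Cf K z η I c Y | a - s ∈ P.asIdeal ^ 2}.ncard : ℝ) ≤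
          C * (1 + Y ^ dg K / (Ni I * (Ni P.asIdeal : ℝ) ^ 2))

/-- CFL: lower bound for the number of elements.  (BXL: an integer `m` near `z Y`, then a class in
the box of radius `η Y / 2` around `m`.) -/
def CFLStmt : Prop :=
  ∀ (K : Type) [Field K] [NumberField K] (z η : ℝ), 0 < η → ∃ C : ℝ, 0 < C ∧
    ∀ I : Ideal (𝓞 K), I ≠ ⊥ → ∃ Y₀ : ℝ, 1 ≤ Y₀ ∧ ∀ Y : ℝ, Y₀ ≤ Y → ∀ c : 𝓞 K,
      C * (Y ^ dg K / Ni I) ≤ (Cf K z η I c Y).ncard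

/-- SV3: few cubic polynomials are singular above a prime which does not divide `I`.  (For given
`a₁`, `a₂` sum over the primes `b < Ni P ≤ C X^(3n)` with CFU, SG3, DB3; PRS for the main terms, PRZ
for the number of primes, CFL for the size of the set of the `a₃`.) -/
def SV3Stmt : Prop :=
  ∀ (K : Type) [Field K] [NumberField K] (z₁ z₂ z₃ η : ℝ), 0 < η → ∃ b : ℕ,
    ∀ (I : Ideal (𝓞 K)) (c₁ c₂ c₃ : 𝓞 K), I ≠ ⊥ →
    (∀ P : HeightOneSpectrum (𝓞 K), Ni P.asIdeal ≤ b → I ≤ P.asIdeal) →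
    ∃ X₀ : ℝ, ∀ X : ℝ, X₀ ≤ X →
      8 * {a : 𝓞 K × 𝓞 K × 𝓞 K | a.1 ∈ Cf K z₁ η I c₁ X ∧ a.2.1 ∈ Cf K z₂ η I c₂ (X ^ 2) ∧
          a.2.2 ∈ Cf K z₃ η I c₃ (X ^ 3) ∧ dsc a.1 a.2.1 a.2.2 ≠ 0 ∧
          ∃ P : HeightOneSpectrum (𝓞 K), ¬ I ≤ P.asIdeal ∧
            Pool.T1.Sing P.asIdeal (cub a.1 a.2.1 a.2.2)}.ncard ≤
        (Cf K z₁ η I c₁ X).ncard * (Cf K z₂ η I c₂ (X ^ 2)).ncard *
          (Cf K z₃ η I c₃ (X ^ 3)).ncard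

end Pool.NF
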