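import Pool.Agent.H66.NF.U
import Pool.Agent.H97.HYP.TY0

/-!
# NF: row WCN (the number of the classes of divisors at a dyadic place)
-/

set_option autoImplicit false

namespace Pool.NF

open Polynomial Matrix NumberField IsDedekindDomain Pool.HYP Pool.TOW Pool.AVS Pool.T1 Pool.PRK

theorem wcn_neg {L : Type} [Field L] (a b c : L) (Q : (WC a b c).toAffine.Point) :
    kp a b c (-Q) = kp a b c Q := by
  cases Q with
  | zero => rfl
  | some x y h => rfl

theorem wcn_kp {L : Type} [Field L] (a b c : L) (P : (WC a b c).toAffine.Point) :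
    kp a b c P ≠ 0 ∧ (kp a b c P).natDegree ≤ 1 := by
  cases P with
  | zero => exact ⟨one_ne_zero, by simp [kp]⟩
  | some x y h =>
    have e : kp a b c (.some x y h) = -(X - C x) := by
      simp only [kp]
      ring
    rw [e]
    exact ⟨neg_ne_zero.2 (X_sub_C_ne_zero x), by rw [natDegree_neg, natDegree_X_sub_C]⟩

theorem wcn_cop {L : Type} [Field L] {f p : L[X]} (hf : Irreducible f) (hd : f.natDegree = 3)
    (hp : p ≠ 0) (hpd : p.natDegree ≤ 1) : IsCoprime f p := by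
  rw [hf.coprime_iff_not_dvd]
  intro h
  have := natDegree_le_of_dvd h hp
  omega

theorem wcn_loc {L : Type} [Field L] (a b c : L) (hf : Irreducible (X ^ 3 + C a * X ^ 2 + C b * X + C c : L[X]))
    (hd : (X ^ 3 + C a * X ^ 2 + C b * X + C c : L[X]).natDegree = 3)
    (P : (WC a b c).toAffine.Point) :
    LocSol (X ^ 3 + C a * X ^ 2 + C b * X + C c) (kp a b c P) := by
  cases P with
  | zero =>
    refine ⟨1, 0, 1, monic_one, isCoprime_one_left, one_dvd _, ?_⟩
    simp [kp]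
  | some x y h =>
    refine ⟨X - C x, C y, 1, monic_X_sub_C x, ?_, ?_, ?_⟩
    · exact (wcn_cop hf hd (X_sub_C_ne_zero x) (by rw [natDegree_X_sub_C])).symm
    · rw [dvd_iff_isRoot]
      have h1 := (eqn_iff a b c x y).1 h.1
      simp only [IsRoot, eval_sub, eval_pow, eval_C, eval_add, eval_mul, eval_X]
      linear_combination h1
    · rw [natDegree_X_sub_C]
      simp only [kp, pow_one, one_pow, mul_one]
      have e : (-1 : L[X]) * (X - C x) - (C x - X) = 0 := by ring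
      rw [e]
      exact dvd_zero _

theorem wcn : WCNStmt := by
  classical
  intro hKPH hKPK hPTS L _ O hL F hFm hFd hFi hfin
  set a : O := F.coeff 2 with ha
  set b : O := F.coeff 1 with hb
  set c : O := F.coeff 0 with hc
  have hF : F = X ^ 3 + C a * X ^ 2 + C b * X + C c := by
    have h3 : F.coeff 3 = 1 := by rw [← hFd]; exact hFm
    rw [F.as_sum_range_C_mul_X_pow, hFd]
    simp only [Finset.sum_range_succ, Finset.sum_range_zero, h3]
    simp only [ha, hb, hc, pow_zero, pow_one, mul_one, zero_add, map_one, one_mul]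
    ring
  have hfe : oL O F = X ^ 3 + C (a : L) * X ^ 2 + C (b : L) * X + C (c : L) := by
    conv_lhs => rw [hF]
    simp only [oL, Polynomial.map_add, Polynomial.map_mul, Polynomial.map_pow, map_X, map_C]
    rfl
  have hirr : Irreducible (oL O F) := Pool.HYP.TyZ.irr O hFm hFi
  have hdeg : (oL O F).natDegree = 3 := by rw [oL, hFm.natDegree_map, hFd]
  obtain ⟨s, hs, hs2⟩ := hPTS L O hL a b c (by rw [← hF]; exact hFi)
  set f : L[X] := oL O F with hf
  have hf' : (X ^ 3 + C (a : L) * X ^ 2 + C (b : L) * X + C (c : L) : L[X]) = f := hfe.symm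
  have hcop : ∀ P : (WC (a : L) (b : L) (c : L)).toAffine.Point,
      IsCoprime f (kp (a : L) b c P) := fun P =>
    wcn_cop hirr hdeg (wcn_kp _ _ _ P).1 (wcn_kp _ _ _ P).2
  have hunit : ∀ P : (WC (a : L) (b : L) (c : L)).toAffine.Point,
      IsUnit (AdjoinRoot.mk f (kp (a : L) b c P)) := by
    intro P
    obtain ⟨u, v, h⟩ := hcop P
    refine IsUnit.of_mul_eq_one (AdjoinRoot.mk f v) ?_
    rw [← map_mul, ← (AdjoinRoot.mk f).map_one, AdjoinRoot.mk_eq_mk, ← h]
    exact ⟨-u, by ring⟩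
  have hdvd : ∀ p q : L[X], AdjoinRoot.mk f p = AdjoinRoot.mk f q ↔ f ∣ p - q := by
    intro p q
    rw [AdjoinRoot.mk_eq_mk]
  choose U hU using fun P => hunit P
  refine hs.trans ?_
  have hinj : Set.InjOn (fun P => (QuotientGroup.mk (U P) : (AdjoinRoot f)ˣ ⧸ SqG f)) (s : Set _) := by
    intro P hP Q hQ h
    by_contra hne
    simp only at h
    rw [QuotientGroup.eq] at h
    obtain ⟨w, hw⟩ := h
    rw [powMonoidHom_apply] at hw
    have hw' : U Q = U P * w ^ 2 := by rw [hw]; group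
    obtain ⟨l₁, hl₁⟩ := AdjoinRoot.mk_surjective (w : AdjoinRoot f)
    obtain ⟨l₂, hl₂⟩ := hKPH L hL.two (a : L) b c P (-Q)
    rw [wcn_neg, ← sub_eq_add_neg, hf', ← hdvd] at hl₂
    simp only [map_mul, map_pow] at hl₂
    rw [← hU P, ← hU Q, hw'] at hl₂
    push_cast at hl₂
    have hUP : ((U P : (AdjoinRoot f)ˣ) : AdjoinRoot f) * (((U P)⁻¹ : (AdjoinRoot f)ˣ) : AdjoinRoot f) = 1 :=
      Units.mul_inv _
    have hww : ((w : (AdjoinRoot f)ˣ) : AdjoinRoot f) * ((w⁻¹ : (AdjoinRoot f)ˣ) : AdjoinRoot f) = 1 :=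
      Units.mul_inv _
    obtain ⟨l₃, hl₃⟩ := AdjoinRoot.mk_surjective
      ((((U P)⁻¹ : (AdjoinRoot f)ˣ) : AdjoinRoot f) * ((w⁻¹ : (AdjoinRoot f)ˣ) : AdjoinRoot f))
    have key : f ∣ kp (a : L) b c (P - Q) - (l₂ * l₃) ^ 2 := by
      rw [← hdvd]
      simp only [map_mul, map_pow]
      rw [hl₃]
      have e1 : (AdjoinRoot.mk f) l₂ ^ 2 =
        (U P : AdjoinRoot f) * ((U P : AdjoinRoot f) * (w : AdjoinRoot f) ^ 2) *
          (AdjoinRoot.mk f) (kp (a : L) b c (P - Q)) := hl₂.symm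
      rw [mul_pow, e1]
      linear_combination (-(AdjoinRoot.mk f) (kp (a : L) b c (P - Q))) *
        (((U P : AdjoinRoot f) * (((U P)⁻¹ : (AdjoinRoot f)ˣ) : AdjoinRoot f) + 1) * (w : AdjoinRoot f) ^ 2 *
          (((w⁻¹ : (AdjoinRoot f)ˣ) : AdjoinRoot f)) ^ 2 * hUP +
          ((w : AdjoinRoot f) * ((w⁻¹ : (AdjoinRoot f)ˣ) : AdjoinRoot f) + 1) * hww)
    rw [← hf'] at key
    obtain ⟨R, hR⟩ := hKPK L hL.two (a : L) b c (by rw [hf']; exact hirr) (P - Q) (l₂ * l₃) key
    exact hs2 P hP Q hQ hne R hR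
  rw [← Set.ncard_coe_finset s, ← hinj.ncard_image]
  · refine Set.ncard_le_ncard ?_ hfin
    rintro _ ⟨P, hP, rfl⟩
    refine ⟨U P, kp (a : L) b c P, rfl, (hU P).symm, ?_⟩
    rw [← hf']
    exact wcn_loc _ _ _ (by rw [hf']; exact hirr) (by rw [hf']; exact hdeg) P

end Pool.NF
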